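import Pool.Agent.Y878.SK.BootA

/-! Project SK, job BOOT3: the other modes are as small as we like if the speeds are chosen
recursively. -/

open Set Filter Topology

set_option autoImplicit false
set_option linter.unusedSectionVars false

namespace Pool.Agent.Y878.SK

open Pool.Agent.Y5.D (Ix qd vf3 Init)
open Pool.Agent.Y6.N
open Pool.Agent.Y6.K (Kz lv)
open Pool.Agent.Y303.SK
open Pool.Agent.Y301.NSK (sa sa_nonneg exit sum_qd sum_Kz sum_lin)
open Pool.Agent.Y710.EK (exists_seq exists_rec)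

theorem t_BOOT3 : S_BOOT3 := by
  intro J g o σ τ L C' ℓ ρ B R E D c Θ β hK hR hΘ hβ
  have hAVG := Pool.Agent.Y141.NSK.AVG.t_AVG2
  classical
  have hR0 := R0 hK
  have hE0 := E0 hK
  have hGfin : ∀ m, {j | o j = m}.Finite := fun m => (hR.fin m).subset fun j hj => le_of_eq hj
  set G : ℕ → Finset J := fun m => (hGfin m).toFinset with hG
  have hGm : ∀ m j, j ∈ G m ↔ o j = m := fun m j => (hGfin m).mem_toFinset
  -- the low modes
  obtain ⟨Lo, hLo⟩ : ∃ Lo : ℕ → ℕ → Finset (Ix J), ∀ n m a, a ∈ Lo n m ↔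
      (∀ k, a = Sum.inl k → k < n) ∧ ∀ j, a = Sum.inr j → o j < m := by
    refine ⟨fun n m => (Finset.range n).image Sum.inl ∪
      (((hR.fin m).toFinset).filter fun j => o j < m).image Sum.inr, fun n m a => ?_⟩
    rw [Finset.mem_union, Finset.mem_image, Finset.mem_image]
    cases a with
    | inl k =>
      constructor
      · rintro (⟨x, hx, h⟩ | ⟨x, hx, h⟩)
        · have : x = k := Sum.inl_injective h
          rw [Finset.mem_range] at hx
          refine ⟨fun k' hk' => ?_, fun j hj => absurd hj Sum.inl_ne_inr⟩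
          have : k = k' := Sum.inl_injective hk'
          omega
        · exact absurd h Sum.inr_ne_inl
      · rintro ⟨h, -⟩
        exact Or.inl ⟨k, Finset.mem_range.2 (h k rfl), rfl⟩
    | inr j =>
      constructor
      · rintro (⟨x, hx, h⟩ | ⟨x, hx, h⟩)
        · exact absurd h.symm Sum.inr_ne_inl
        · have : x = j := Sum.inr_injective h
          rw [Finset.mem_filter] at hx
          refine ⟨fun k hk => absurd hk.symm Sum.inl_ne_inr, fun j' hj' => ?_⟩
          have h2 : j = j' := Sum.inr_injective hj'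
          rw [← h2, ← this]
          exact hx.2
      · rintro ⟨-, h⟩
        refine Or.inr ⟨j, Finset.mem_filter.2 ⟨?_, h j rfl⟩, rfl⟩
        rw [Set.Finite.mem_toFinset]
        exact (h j rfl).le
  set KK : J → ℝ := fun w => 2 * R (Sum.inr w) + E (Sum.inr w) with hKK
  have KK0 : ∀ w, 0 ≤ KK w := fun w => by
    have h1 := hR0 (Sum.inr w)
    have h2 := hE0 (Sum.inr w)
    rw [hKK]
    show 0 ≤ 2 * R (Sum.inr w) + E (Sum.inr w)
    linarith
  set Q : ℕ → ℕ → ℝ := fun i l => ∑ w ∈ G i, ∑ _j ∈ G l, KK w with hQ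
  have hQ0 : ∀ i l, 0 ≤ Q i l := fun i l => Finset.sum_nonneg fun w _ =>
    Finset.sum_nonneg fun j _ => KK0 w
  choose C hC1 hC using fun m => hAVG (Q m m) Θ (G m).card (hQ0 m m) hΘ
  obtain ⟨β0, hβ0, hβ0'⟩ : ∃ β0 : ℕ → ℝ, (∀ m, 0 < β0 m) ∧ ∀ j, β0 (o j) ≤ β j := by
    refine ⟨fun m => if h : (G m).Nonempty then (G m).inf' h fun j => β j else 1, fun m => ?_,
      fun j => ?_⟩
    · dsimp only
      split_ifs with h
      · rw [Finset.lt_inf'_iff]
        exact fun j _ => hβ _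
      · exact one_pos
    · have hj : j ∈ G (o j) := (hGm _ _).2 rfl
      dsimp only
      rw [dif_pos ⟨j, hj⟩]
      exact Finset.inf'_le _ hj
  obtain ⟨b, hbpos, hbβ, hbsum⟩ := exists_seq C (fun l => ∑ i ∈ Finset.range l, Q i l) β0 hC1
    (fun l => Finset.sum_nonneg fun i _ => hQ0 i l) hβ0
  have hC0 : ∀ m, 0 < C m := fun m => zero_lt_one.trans_le (hC1 m)
  set ζ : ℕ → ℝ := fun m => b m / (8 * C m) with hζ
  have hζ0 : ∀ m, 0 < ζ m := fun m => div_pos (hbpos m) (by have := hC0 m; positivity)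
  have hthr : ∀ m, ∃ n : ℕ, (∀ j, o j ≤ m → g j ≤ n) ∧ ∀ k, n ≤ k → ∀ w ∈ G m,
      R (Sum.inr w) ≤ ζ m * ρ k := by
    intro m
    obtain ⟨n1, hn1⟩ := Filter.eventually_atTop.1
      (hK.ρinf.eventually_ge_atTop ((∑ w ∈ G m, R (Sum.inr w)) / ζ m))
    refine ⟨max n1 (∑ w ∈ (hR.fin m).toFinset, g w), fun j hj => ?_, fun k hk w hw => ?_⟩
    · refine le_trans ?_ (le_max_right _ _)
      exact Finset.single_le_sum (f := fun w => g w) (fun _ _ => Nat.zero_le _)
        ((hR.fin m).mem_toFinset.2 hj)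
    · have h1 := hn1 k ((le_max_left _ _).trans hk)
      rw [div_le_iff₀ (hζ0 m)] at h1
      have h2 := Finset.single_le_sum (f := fun w => R (Sum.inr w)) (fun w _ => hR0 _) hw
      linarith
  choose n hn1 hn2 using hthr
  set LL : ℕ → Finset (Ix J) := fun m => Lo (n m) m with hLL
  have hLLm : ∀ m a, a ∈ LL m ↔ (∀ k, a = Sum.inl k → k < n m) ∧ ∀ j, a = Sum.inr j → o j < m :=
    fun m a => hLo (n m) m a
  set hm : ℕ → (ℕ → ℝ) → ℝ := fun m S => ∑ w ∈ G m, hb o R E D c (LL m) S w with hhm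
  obtain ⟨S, hS⟩ := exists_rec (fun m s => max 1 (8 * C m * hm m s / b m))
  have hS1 : ∀ m, 1 ≤ S m := fun m => by rw [hS]; exact le_max_left _ _
  have hSh : ∀ m, 8 * C m * hm m S / b m ≤ S m := by
    intro m
    have h1 : hm m (fun i => if i < m then S i else 0) = hm m S := by
      refine Finset.sum_congr rfl fun w hw => ?_
      exact hb_congr (fun j hj => ((hLLm m _).1 hj).2 j rfl) (fun l hl => if_pos hl) w
    conv_rhs => rw [hS]
    rw [← h1]
    exact le_max_right _ _
  have hhm0 : ∀ m, 0 ≤ hm m S := fun m => Finset.sum_nonneg fun w _ => hb_nonneg hK _ S w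
  refine ⟨S, hS1, fun N z hz => ?_⟩
  -- the modes of the levels `≤ N`
  set F : Finset J := (hR.fin N).toFinset with hF
  have hFm : ∀ j, j ∈ F ↔ o j ≤ N := fun j => (hR.fin N).mem_toFinset
  set FF : Finset (Ix J) := (Finset.range (N + 1)).image Sum.inl ∪ F.image Sum.inr with hFF
  have hFFlv : ∀ a ∈ FF, lv o a ≤ N := by
    intro a ha
    rw [hFF, Finset.mem_union, Finset.mem_image, Finset.mem_image] at ha
    rcases ha with ⟨x, hx, rfl⟩ | ⟨x, hx, rfl⟩
    · exact Nat.lt_succ_iff.1 (Finset.mem_range.1 hx)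
    · exact (hFm x).1 hx
  have hFFm : ∀ a, a ∉ FF → ∀ t, z a t = 0 := by
    intro a ha t
    apply hz.zero
    by_contra h
    apply ha
    cases a with
    | inl n =>
      exact Finset.mem_union_left _ (Finset.mem_image_of_mem _ (Finset.mem_range.2
        (Nat.lt_succ_of_le (not_lt.1 h))))
    | inr j =>
      exact Finset.mem_union_right _ (Finset.mem_image_of_mem _ ((hFm j).2 (show o j ≤ N from not_lt.1 h)))
  have hFm' : ∀ j ∉ F, ∀ t, z (Sum.inr j) t = 0 := fun j hj t =>
    hz.zero (Sum.inr j) (not_le.1 fun h => hj ((hFm j).2 h)) t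
  have hsumm : ∀ t, Summable (fun a => z a t ^ 2) := fun t =>
    summable_of_ne_finset_zero (s := FF) fun a ha => by rw [hFFm a ha t]; norm_num
  have hFF1 : ∀ t ∈ Icc (0 : ℝ) Θ, ∑ a ∈ FF, z a t ^ 2 ≤ 1 := by
    intro t ht
    have h1 : ∑' a, z a t ^ 2 = ∑ a ∈ FF, z a t ^ 2 := tsum_eq_sum fun a ha => by
      rw [hFFm a ha t]; norm_num
    rw [← h1]
    exact hz.energy t ht
  have hone : ∀ a, ∀ t ∈ Icc (0 : ℝ) Θ, |z a t| ≤ 1 := by
    intro a t ht
    have h1 : z a t ^ 2 ≤ 1 :=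
      ((hsumm t).le_tsum a fun i _ => sq_nonneg _).trans (hz.energy t ht)
    exact abs_le_one_iff_mul_self_le_one.2 (by rwa [← sq])
  obtain ⟨dz, hdz⟩ : ∃ dz : Ix J → ℝ → ℝ, ∀ a t, dz a t = if lv o a ≤ N then
    Kz S o σ τ (fun a => z a t) a - lin D (fun a => z a t) a + qd c (fun a => z a t) a else 0 :=
    ⟨_, fun _ _ => rfl⟩
  have hder : ∀ a, ∀ t ∈ Icc (0 : ℝ) Θ, HasDerivWithinAt (z a) (dz a t) (Icc 0 Θ) t := by
    intro a t ht
    by_cases ha : lv o a ≤ N
    · rw [hdz, if_pos ha]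
      exact hz.deriv a ha t ht
    · rw [hdz, if_neg ha]
      have h1 : z a = fun _ => 0 := funext fun s => hz.zero a (not_le.1 ha) s
      rw [h1]
      exact hasDerivWithinAt_const _ _ _
  have hτ1 : ∀ j, |τ j| ≤ 1 := by
    intro j
    have h := hR.unit j
    exact abs_le_one_iff_mul_self_le_one.2 (by rw [← sq, h])
  have hdzb : ∀ a, ∀ t ∈ Icc (0 : ℝ) Θ, |dz a t| ≤ spd o R E S a := by
    intro a t ht
    rw [hdz]
    split_ifs with ha
    · have h1 := qd_le hK FF (z := fun a => z a t) (fun a ha => hFFm a ha t) (hFF1 t ht) a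
      have h2 := lin_le hK FF (z := fun a => z a t) (fun a ha => hFFm a ha t) (hFF1 t ht) a
      have h3 : |Kz S o σ τ (fun a => z a t) a| ≤ sa o S a := by
        cases a with
        | inl n =>
          show |(0 : ℝ)| ≤ 0
          rw [abs_zero]
        | inr j =>
          show |S (o j) * τ j * z (Sum.inr (σ j)) t| ≤ |S (o j)|
          rw [abs_mul, abs_mul, mul_assoc]
          refine mul_le_of_le_one_right (abs_nonneg _) ?_
          exact mul_le_one₀ (hτ1 j) (abs_nonneg _) (hone _ t ht)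
      unfold spd
      refine (abs_add_le _ _).trans (add_le_add ((abs_sub _ _).trans (add_le_add h3 h2)) h1)
    · rw [abs_zero]
      exact spd_nonneg hK S a
  have hcont : ∀ a, ContinuousOn (z a) (Icc 0 Θ) := fun a t ht => (hder a t ht).continuousWithinAt
  -- the energy
  obtain ⟨Y, hY⟩ : ∃ Y : ℝ → ℝ, ∀ t, Y t = ∑ a ∈ FF, z a t ^ 2 := ⟨_, fun _ => rfl⟩
  obtain ⟨Y', hY'⟩ : ∃ Y' : ℝ → ℝ, ∀ t, Y' t = ∑ a ∈ FF, 2 * (z a t * dz a t) :=
    ⟨_, fun _ => rfl⟩
  have hYd : ∀ t ∈ Icc (0 : ℝ) Θ, HasDerivWithinAt Y (Y' t) (Icc 0 Θ) t := by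
    intro t ht
    have h1 : Y = fun t => ∑ a ∈ FF, z a t * z a t := funext fun t => by
      rw [hY]
      exact Finset.sum_congr rfl fun a _ => sq _
    rw [h1, hY']
    refine HasDerivWithinAt.fun_sum fun a _ => ?_
    have h2 := (hder a t ht).mul (hder a t ht)
    have h3 : dz a t * z a t + z a t * dz a t = 2 * (z a t * dz a t) := by ring
    rw [h3] at h2
    exact h2
  have hrh0 : ∀ a : Ix J, 0 ≤ rhI ρ a := by
    intro a
    cases a with
    | inl k => exact hK.ρ0 k
    | inr j => exact le_rfl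
  have hYneg : ∀ t ∈ Icc (0 : ℝ) Θ, ∑ a ∈ FF, rhI ρ a * z a t ^ 2 ≤ -Y' t / 2 := by
    intro t ht
    have h1 := hK.coer FF (fun a => z a t)
    have h2 := sum_lin (D := D) FF (fun a ha => hFFm a ha t)
    have h3 := sum_qd hK.anti FF (fun a ha => hFFm a ha t)
    have h4 := sum_Kz hR S (z := fun a => z a t) N F hFm
    rw [← hFF] at h4
    have h5 : Y' t = 2 * (∑ a ∈ FF, z a t * Kz S o σ τ (fun a => z a t) a -
        ∑ a ∈ FF, z a t * lin D (fun a => z a t) a + ∑ a ∈ FF, z a t * qd c (fun a => z a t) a) := by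
      rw [hY', ← Finset.sum_sub_distrib, ← Finset.sum_add_distrib, Finset.mul_sum]
      refine Finset.sum_congr rfl fun a ha => ?_
      rw [hdz, if_pos (hFFlv a ha)]
      ring
    rw [h2, h3, h4] at h5
    rw [h5]
    linarith
  have hY1 : ∀ t ∈ Icc (0 : ℝ) Θ, 0 ≤ Y t ∧ Y t ≤ 1 := by
    intro t ht
    rw [hY]
    exact ⟨Finset.sum_nonneg fun _ _ => sq_nonneg _, hFF1 t ht⟩
  have hY0 : ∀ t ∈ Icc (0 : ℝ) Θ, Y' t ≤ 0 := by
    intro t ht
    have h1 := hYneg t ht
    have h2 : 0 ≤ ∑ a ∈ FF, rhI ρ a * z a t ^ 2 :=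
      Finset.sum_nonneg fun a _ => mul_nonneg (hrh0 _) (sq_nonneg _)
    linarith
  have hfin := exit F (fun j => z (Sum.inr j)) (fun j => b (o j)) (fun j => hbpos _)
    (fun j => hcont _) (fun j => hz.init.2.2 j) (fun j hj t _ => by
      show |z (Sum.inr j) t| ≤ b (o j)
      rw [hFm' j hj t, abs_zero]
      exact (hbpos _).le) ?_
  · exact fun j t ht => (hfin j t ht).trans ((hbβ _).trans (hβ0' j))
  intro θ hθ hgood j hj t ht
  have hsub : Icc 0 θ ⊆ Icc (0 : ℝ) Θ := Icc_subset_Icc_right hθ.2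
  obtain ⟨m, hmdef⟩ : ∃ m, m = o j := ⟨_, rfl⟩
  have hmN : m ≤ N := by rw [hmdef]; exact (hFm j).1 hj
  obtain ⟨η, hη⟩ : ∃ η : ℝ, η = ∑ l ∈ Finset.Ioc m N, (∑ i ∈ Finset.range l, Q i l) * b l :=
    ⟨_, rfl⟩
  have hη0 : 0 ≤ η := by
    rw [hη]
    exact Finset.sum_nonneg fun l _ => mul_nonneg (Finset.sum_nonneg fun i _ => hQ0 i l) (hbpos l).le
  -- the error
  have herr : ∀ w ∈ G m, ∀ s ∈ Icc (0 : ℝ) θ,
      |-(lin D (fun a => z a s) (Sum.inr w)) + qd c (fun a => z a s) (Sum.inr w) -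
        Hf D c (LL m) w (fun a => z a s)| ≤
      Q m m * ∑ i ∈ G m, |z (Sum.inr i) s| + η + ζ m * -Y' s := by
    intro w hw s hs
    have hsΘ := hsub hs
    have h1 := err hK (z := fun a => z a s) F FF (fun j hj => hFm' j hj s)
      (fun a ha => hFFm a ha s) (hFF1 s hsΘ) w m (n m) (LL m) (hLLm m)
      (hn1 m w (le_of_eq ((hGm m w).1 hw))) (fun j hj => hn1 m j hj.le)
    refine h1.trans (add_le_add ?_ ?_)
    · have h2 : ∑ i ∈ F, (if m ≤ o i then KK w * |z (Sum.inr i) s| else 0) =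
          ∑ l ∈ Finset.Icc m N, ∑ i ∈ G l, KK w * |z (Sum.inr i) s| := by
        rw [← Finset.sum_filter, ← Finset.sum_fiberwise_of_maps_to (s := F.filter fun i => m ≤ o i)
          (t := Finset.Icc m N) (g := o) (fun i hi => by
            rw [Finset.mem_filter] at hi
            exact Finset.mem_Icc.2 ⟨hi.2, (hFm i).1 hi.1⟩)]
        refine Finset.sum_congr rfl fun l hl => ?_
        rw [Finset.mem_Icc] at hl
        refine Finset.sum_congr ?_ fun _ _ => rfl
        ext i
        rw [Finset.mem_filter, Finset.mem_filter, hFm, hGm]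
        constructor
        · exact fun h => h.2
        · rintro rfl
          exact ⟨⟨hl.2, hl.1⟩, rfl⟩
      show ∑ i ∈ F, (if m ≤ o i then KK w * |z (Sum.inr i) s| else 0) ≤ _
      rw [h2, ← Finset.Ioc_insert_left hmN, Finset.sum_insert (by simp)]
      refine add_le_add ?_ ?_
      · rw [Finset.mul_sum]
        refine Finset.sum_le_sum fun i hi => mul_le_mul_of_nonneg_right ?_ (abs_nonneg _)
        have e1 : KK w ≤ ∑ _j ∈ G m, KK w :=
          Finset.single_le_sum (f := fun _ => KK w) (fun j _ => KK0 w) hi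
        have e2 : ∑ _j ∈ G m, KK w ≤ Q m m :=
          Finset.single_le_sum (f := fun w => ∑ _j ∈ G m, KK w)
            (fun w _ => Finset.sum_nonneg fun j _ => KK0 w) hw
        exact e1.trans e2
      · rw [hη]
        refine Finset.sum_le_sum fun l hl => ?_
        rw [Finset.mem_Ioc] at hl
        have e1 : ∑ i ∈ G l, KK w * |z (Sum.inr i) s| ≤ (∑ _i ∈ G l, KK w) * b l := by
          rw [Finset.sum_mul]
          refine Finset.sum_le_sum fun i hi => mul_le_mul_of_nonneg_left ?_ (KK0 w)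
          have := hgood i s hs
          rwa [(hGm l i).1 hi] at this
        have e2 : ∑ _j ∈ G l, KK w ≤ Q m l :=
          Finset.single_le_sum (f := fun w => ∑ _j ∈ G l, KK w)
            (fun w _ => Finset.sum_nonneg fun j _ => KK0 w) hw
        have e3 : Q m l ≤ ∑ i ∈ Finset.range l, Q i l :=
          Finset.single_le_sum (f := fun i => Q i l) (fun i _ => hQ0 i l)
            (Finset.mem_range.2 hl.1)
        exact e1.trans (mul_le_mul_of_nonneg_right (e2.trans e3) (hbpos l).le)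
    · have h3 := hYneg s hsΘ
      have h4 : R (Sum.inr w) * ∑ a ∈ FF, mn (n m) a * z a s ^ 2 ≤
          ζ m * ∑ a ∈ FF, rhI ρ a * z a s ^ 2 := by
        rw [Finset.mul_sum, Finset.mul_sum]
        refine Finset.sum_le_sum fun a _ => ?_
        rw [← mul_assoc, ← mul_assoc]
        refine mul_le_mul_of_nonneg_right ?_ (sq_nonneg _)
        cases a with
        | inl k =>
          show R (Sum.inr w) * (if n m ≤ k then (1 : ℝ) else 0) ≤ ζ m * ρ k
          split_ifs with h
          · rw [mul_one]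
            exact hn2 m k h w hw
          · rw [mul_zero]
            exact mul_nonneg (hζ0 m).le (hK.ρ0 _)
        | inr j =>
          show R (Sum.inr w) * 0 ≤ ζ m * 0
          rw [mul_zero, mul_zero]
      have h5 := mul_le_mul_of_nonneg_left h3 (hζ0 m).le
      have h6 : 0 ≤ ζ m * (-Y' s / 2) := mul_nonneg (hζ0 m).le (by have := hY0 s hsΘ; linarith)
      show R (Sum.inr w) * ∑ a ∈ FF, mn (n m) a * z a s ^ 2 ≤ _
      linarith
  have hbnd := hC m (G m) (fun i => ⟨σ i, (hGm m _).2 ((hR.grp _).trans ((hGm m _).1 i.2))⟩)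
    (fun i => τ i) (S m) θ (hm m S) η (ζ m) (fun i s => z (Sum.inr i) s)
    (fun i s => Hf D c (LL m) (i : J) (fun a => z a s))
    (fun i s => Hf' D c (LL m) (i : J) (fun a => z a s) (fun a => dz a s))
    (fun i s => -(lin D (fun a => z a s) (Sum.inr (i : J))) + qd c (fun a => z a s) (Sum.inr (i : J)) -
        Hf D c (LL m) (i : J) (fun a => z a s)) Y Y'
    (by rw [Fintype.card_coe]) (fun i => Subtype.ext (hR.inv _)) (fun i => hR.skew _)
    (fun i => hR.unit _) (hS1 m) hθ.1 hθ.2 (hhm0 m) hη0 (hζ0 m).le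
    (by
      intro i s hs
      have hoi : o (i : J) = m := (hGm m _).1 i.2
      have h1 := (hz.deriv (Sum.inr (i : J)) (by show o (i : J) ≤ N; rw [hoi]; exact hmN) s
        (hsub hs)).mono hsub
      refine h1.congr_deriv ?_
      have hSi : S (o (i : J)) = S m := congrArg S hoi
      show S (o (i : J)) * τ i * z (Sum.inr (σ i)) s - lin D (fun a => z a s) (Sum.inr (i : J)) +
        qd c (fun a => z a s) (Sum.inr (i : J)) = _
      rw [hSi]
      ring)
    (by
      intro i s hs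
      exact Hf_deriv (fun a => (hder a s (hsub hs)).mono hsub) (i : J))
    (by
      intro i s hs
      have hi : hb o R E D c (LL m) S (i : J) ≤ hm m S :=
        Finset.single_le_sum (f := fun w => hb o R E D c (LL m) S w)
          (fun w _ => hb_nonneg hK _ S w) i.2
      have h1 := Hf_le hK (LL m) S (z := fun a => z a s) (dz := fun a => dz a s)
        (fun a => hone a s (hsub hs)) (fun a => hdzb a s (hsub hs)) (i : J)
      exact ⟨h1.1.trans hi, h1.2.trans hi⟩)
    (by
      intro s hs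
      have hsΘ := hsub hs
      exact ⟨(hYd s hsΘ).mono hsub, hY0 s hsΘ, hY1 s hsΘ⟩)
    (by
      intro i s hs
      have h1 := herr (i : J) i.2 s hs
      rw [Finset.sum_coe_sort (G m) (fun i => |z (Sum.inr i) s|)]
      exact h1)
    (fun i => hz.init.2.2 i) ⟨j, (hGm m j).2 hmdef.symm⟩ t ht
  refine hbnd.trans ?_
  have h1 : C m * (hm m S / S m) ≤ b m / 8 := by
    have hSpos : 0 < S m := zero_lt_one.trans_le (hS1 m)
    have h2 := hSh m
    rw [div_le_iff₀ (hbpos m)] at h2
    rw [← mul_div_assoc, div_le_div_iff₀ hSpos (by norm_num)]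
    linarith
  have h2 : C m * η ≤ b m / 8 := by
    rw [hη]
    exact hbsum m N
  have h3 : C m * ζ m = b m / 8 := by
    have := (hC0 m).ne'
    rw [hζ]
    field_simp
  rw [mul_add, mul_add]
  have := hbpos m
  show _ ≤ b (o j) / 2
  rw [← hmdef]
  linarith

end Pool.Agent.Y878.SK
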