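import Pool.Agent.Y303.SK.Stm
import Pool.Agent.Y301.NSK.BOOT
import Pool.Agent.Y141.NSK.AVG

/-! Project SK, job BOOT3: preparations. -/

open Set Filter Topology

set_option autoImplicit false
set_option linter.unusedSectionVars false

namespace Pool.Agent.Y878.SK

open Pool.Agent.Y5.D (Ix qd vf3 Init)
open Pool.Agent.Y6.N
open Pool.Agent.Y6.K (Kz lv)
open Pool.Agent.Y303.SK
open Pool.Agent.Y301.NSK (sa sa_nonneg sum_le_of_van)

section

variable {J : Type}

/-- speed of a mode -/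
noncomputable def spd (o : J → ℕ) (R E : Ix J → ℝ) (S : ℕ → ℝ) (a : Ix J) : ℝ :=
  sa o S a + E a + R a

/-- the part of the right-hand side with the modes of the finite set `LL` -/
noncomputable def Hf (D : Ix J → Ix J → ℝ) (c : Ix J → Ix J → Ix J → ℝ) (LL : Finset (Ix J))
    (w : J) (z : Ix J → ℝ) : ℝ :=
  -(∑ b ∈ LL, D (Sum.inr w) b * z b) + ∑ p ∈ LL ×ˢ LL, c (Sum.inr w) p.1 p.2 * z p.1 * z p.2

/-- its derivative -/
noncomputable def Hf' (D : Ix J → Ix J → ℝ) (c : Ix J → Ix J → Ix J → ℝ) (LL : Finset (Ix J))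
    (w : J) (z dz : Ix J → ℝ) : ℝ :=
  -(∑ b ∈ LL, D (Sum.inr w) b * dz b) + ∑ p ∈ LL ×ˢ LL, (c (Sum.inr w) p.1 p.2 * dz p.1 * z p.2 +
      c (Sum.inr w) p.1 p.2 * z p.1 * dz p.2)

/-- bound for `Hf` and `Hf'` -/
noncomputable def hb (o : J → ℕ) (R E : Ix J → ℝ) (D : Ix J → Ix J → ℝ)
    (c : Ix J → Ix J → Ix J → ℝ) (LL : Finset (Ix J)) (S : ℕ → ℝ) (w : J) : ℝ :=
  ∑ b ∈ LL, |D (Sum.inr w) b| * (1 + spd o R E S b) +
    ∑ p ∈ LL ×ˢ LL, |c (Sum.inr w) p.1 p.2| * (1 + spd o R E S p.1 + spd o R E S p.2)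

variable {g o : J → ℕ} {L C ℓ ρ : ℕ → ℝ} {B : ℕ → ℕ → ℝ} {R E : Ix J → ℝ}
  {D : Ix J → Ix J → ℝ} {c : Ix J → Ix J → Ix J → ℝ}

lemma c_le (hK : KD g L C ℓ ρ B R E D c) (i a b : Ix J) : |c i a b| ≤ R i := by
  classical
  by_cases hab : a = b
  · subst hab
    have h := hK.bil i {a} (fun _ => 1) (fun _ => 1)
    simpa using h
  · have h := hK.bil i {a, b} (fun x => if x = a then 1 else 0) (fun x => if x = b then 1 else 0)
    rw [Finset.sum_pair hab, Finset.sum_pair hab, Finset.sum_pair hab, Finset.sum_pair hab,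
      Finset.sum_pair hab] at h
    have hba : b ≠ a := fun h => hab h.symm
    simpa [hab, hba] using h

lemma R0 (hK : KD g L C ℓ ρ B R E D c) (i : Ix J) : 0 ≤ R i :=
  (abs_nonneg _).trans (c_le hK i i i)

lemma E0 (hK : KD g L C ℓ ρ B R E D c) (i : Ix J) : 0 ≤ E i := by
  have h := hK.dlin i {i} (fun _ => 1)
  have h1 : |D i i| ≤ E i := by simpa using h
  exact (abs_nonneg _).trans h1

lemma spd_nonneg (hK : KD g L C ℓ ρ B R E D c) (S : ℕ → ℝ) (a : Ix J) : 0 ≤ spd o R E S a :=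
  add_nonneg (add_nonneg (sa_nonneg S a) (E0 hK a)) (R0 hK a)

lemma hb_nonneg (hK : KD g L C ℓ ρ B R E D c) (LL : Finset (Ix J)) (S : ℕ → ℝ) (w : J) :
    0 ≤ hb o R E D c LL S w := by
  have := fun a => spd_nonneg (o := o) hK S a
  refine add_nonneg (Finset.sum_nonneg fun b _ => mul_nonneg (abs_nonneg _) ?_)
    (Finset.sum_nonneg fun p _ => mul_nonneg (abs_nonneg _) ?_)
  · linarith [this b]
  · linarith [this p.1, this p.2]

lemma hb_congr {m : ℕ} {LL : Finset (Ix J)} (hLL : ∀ j, Sum.inr j ∈ LL → o j < m) {S S' : ℕ → ℝ}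
    (h : ∀ l < m, S l = S' l) (w : J) : hb o R E D c LL S w = hb o R E D c LL S' w := by
  have h1 : ∀ a ∈ LL, spd o R E S a = spd o R E S' a := by
    intro a ha
    unfold spd
    congr 2
    cases a with
    | inl n => rfl
    | inr j =>
      show |S (o j)| = |S' (o j)|
      rw [h _ (hLL j ha)]
  unfold hb
  congr 1
  · exact Finset.sum_congr rfl fun b hb => by rw [h1 b hb]
  · refine Finset.sum_congr rfl fun p hp => ?_
    rw [Finset.mem_product] at hp
    rw [h1 _ hp.1, h1 _ hp.2]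

lemma Hf_deriv {LL : Finset (Ix J)} {z dz : Ix J → ℝ → ℝ} {s : Set ℝ} {t : ℝ}
    (h : ∀ a, HasDerivWithinAt (z a) (dz a t) s t) (w : J) :
    HasDerivWithinAt (fun t => Hf D c LL w (fun a => z a t))
      (Hf' D c LL w (fun a => z a t) (fun a => dz a t)) s t := by
  unfold Hf Hf'
  refine HasDerivWithinAt.fun_add (HasDerivWithinAt.fun_neg ?_) ?_
  · exact HasDerivWithinAt.fun_sum fun b _ => (h b).const_mul (D (Sum.inr w) b)
  · refine HasDerivWithinAt.fun_sum fun p _ => ?_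
    exact ((h p.1).const_mul (c (Sum.inr w) p.1 p.2)).mul (h p.2)

lemma Hf_le (hK : KD g L C ℓ ρ B R E D c) (LL : Finset (Ix J)) (S : ℕ → ℝ) {z dz : Ix J → ℝ}
    (hz : ∀ a, |z a| ≤ 1) (hdz : ∀ a, |dz a| ≤ spd o R E S a) (w : J) :
    |Hf D c LL w z| ≤ hb o R E D c LL S w ∧ |Hf' D c LL w z dz| ≤ hb o R E D c LL S w := by
  have h0 := fun a => spd_nonneg (o := o) hK S a
  constructor
  · unfold Hf hb
    refine (abs_add_le _ _).trans (add_le_add ?_ ?_)
    · rw [abs_neg]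
      refine (Finset.abs_sum_le_sum_abs _ _).trans (Finset.sum_le_sum fun b _ => ?_)
      rw [abs_mul]
      refine mul_le_mul_of_nonneg_left ?_ (abs_nonneg _)
      linarith [hz b, h0 b]
    · refine (Finset.abs_sum_le_sum_abs _ _).trans (Finset.sum_le_sum fun p _ => ?_)
      rw [abs_mul, abs_mul, mul_assoc]
      refine mul_le_mul_of_nonneg_left ?_ (abs_nonneg _)
      have e5 : |z p.1| * |z p.2| ≤ 1 := mul_le_one₀ (hz p.1) (abs_nonneg _) (hz p.2)
      linarith [h0 p.1, h0 p.2]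
  · unfold Hf' hb
    refine (abs_add_le _ _).trans (add_le_add ?_ ?_)
    · rw [abs_neg]
      refine (Finset.abs_sum_le_sum_abs _ _).trans (Finset.sum_le_sum fun b _ => ?_)
      rw [abs_mul]
      refine mul_le_mul_of_nonneg_left ?_ (abs_nonneg _)
      linarith [hdz b]
    · refine (Finset.abs_sum_le_sum_abs _ _).trans (Finset.sum_le_sum fun p _ => ?_)
      have e5 : |dz p.1| * |z p.2| ≤ spd o R E S p.1 :=
        (mul_le_of_le_one_right (abs_nonneg _) (hz p.2)).trans (hdz p.1)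
      have e6 : |z p.1| * |dz p.2| ≤ spd o R E S p.2 :=
        (mul_le_of_le_one_left (abs_nonneg _) (hz p.1)).trans (hdz p.2)
      refine (abs_add_le _ _).trans ?_
      rw [abs_mul, abs_mul, abs_mul, abs_mul, mul_assoc, mul_assoc, ← mul_add]
      refine mul_le_mul_of_nonneg_left ?_ (abs_nonneg _)
      linarith

/-- the quadratic term as a finite sum -/
lemma qd_eq {z : Ix J → ℝ} (FF : Finset (Ix J)) (hz : ∀ a, a ∉ FF → z a = 0) (i : Ix J) :
    qd c z i = ∑ a ∈ FF, ∑ b ∈ FF, c i a b * z a * z b := by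
  unfold qd
  rw [tsum_eq_sum (s := FF ×ˢ FF), Finset.sum_product]
  intro p hp
  rw [Finset.mem_product, not_and_or] at hp
  rcases hp with h | h
  · rw [hz _ h, mul_zero, zero_mul]
  · rw [hz _ h, mul_zero]

/-- the linear term as a finite sum -/
lemma lin_eq {z : Ix J → ℝ} (FF : Finset (Ix J)) (hz : ∀ a, a ∉ FF → z a = 0) (i : Ix J) :
    lin D z i = ∑ b ∈ FF, D i b * z b := by
  unfold lin
  exact tsum_eq_sum fun b hb => by rw [hz b hb, mul_zero]

lemma qd_le (hK : KD g L C ℓ ρ B R E D c) {z : Ix J → ℝ} (FF : Finset (Ix J))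
    (hz : ∀ a, a ∉ FF → z a = 0) (h1 : ∑ a ∈ FF, z a ^ 2 ≤ 1) (i : Ix J) : |qd c z i| ≤ R i := by
  rw [qd_eq FF hz]
  refine (hK.bil i FF z z).trans ?_
  rw [Real.mul_self_sqrt (Finset.sum_nonneg fun _ _ => sq_nonneg _)]
  exact mul_le_of_le_one_right (R0 hK i) h1

lemma lin_le (hK : KD g L C ℓ ρ B R E D c) {z : Ix J → ℝ} (FF : Finset (Ix J))
    (hz : ∀ a, a ∉ FF → z a = 0) (h1 : ∑ a ∈ FF, z a ^ 2 ≤ 1) (i : Ix J) : |lin D z i| ≤ E i := by
  rw [lin_eq FF hz]
  refine (hK.dlin i FF z).trans ?_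
  refine mul_le_of_le_one_right (E0 hK i) ?_
  exact Real.sqrt_le_one.2 h1

lemma sqrt_le_sum (FF : Finset (Ix J)) (x : Ix J → ℝ) :
    √(∑ a ∈ FF, x a ^ 2) ≤ ∑ a ∈ FF, |x a| := by
  rw [Real.sqrt_le_left (Finset.sum_nonneg fun _ _ => abs_nonneg _)]
  have := Finset.sum_sq_le_sq_sum_of_nonneg (s := FF) (f := fun a => |x a|) (fun _ _ => abs_nonneg _)
  simpa only [sq_abs] using this

/-- the indicator of the main modes `≥ n` -/
def mn {J : Type} (n : ℕ) : Ix J → ℝ
  | Sum.inl k => if n ≤ k then 1 else 0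
  | Sum.inr _ => 0

/-- the right-hand side minus the part with the modes in `LL` -/
lemma err (hK : KD g L C ℓ ρ B R E D c) {z : Ix J → ℝ} (F : Finset J) (FF : Finset (Ix J))
    (hzF : ∀ j, j ∉ F → z (Sum.inr j) = 0) (hz : ∀ a, a ∉ FF → z a = 0)
    (h1 : ∑ a ∈ FF, z a ^ 2 ≤ 1) (w : J) (m n : ℕ) (LL : Finset (Ix J))
    (hLL : ∀ a, a ∈ LL ↔ (∀ k, a = Sum.inl k → k < n) ∧ ∀ j, a = Sum.inr j → o j < m)
    (hg : g w ≤ n) (hgl : ∀ j, o j < m → g j ≤ n) :
    |-(lin D z (Sum.inr w)) + qd c z (Sum.inr w) - Hf D c LL w z| ≤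
      ∑ j ∈ F, (if m ≤ o j then (2 * R (Sum.inr w) + E (Sum.inr w)) * |z (Sum.inr j)| else 0) +
      R (Sum.inr w) * ∑ a ∈ FF, mn n a * z a ^ 2 := by
  classical
  obtain ⟨zL, hzL⟩ : ∃ zL : Ix J → ℝ, ∀ a, zL a = if a ∈ LL then z a else 0 := ⟨_, fun _ => rfl⟩
  obtain ⟨zM, hzM⟩ : ∃ zM : Ix J → ℝ, ∀ a, zM a = mn n a * z a := ⟨_, fun _ => rfl⟩
  obtain ⟨zO, hzO⟩ : ∃ zO : Ix J → ℝ, ∀ a, zO a = z a - zL a - zM a := ⟨_, fun _ => rfl⟩
  have hsum : ∀ a, z a = zL a + zM a + zO a := fun a => by rw [hzO]; ring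
  -- values
  have vL : ∀ a, zL a ≠ 0 → (∀ k, a = Sum.inl k → k < n) ∧ ∀ j, a = Sum.inr j → g j ≤ n := by
    intro a ha
    rw [hzL] at ha
    have hm : a ∈ LL := by
      by_contra h
      rw [if_neg h] at ha
      exact ha rfl
    rw [hLL] at hm
    exact ⟨hm.1, fun j hj => hgl j (hm.2 j hj)⟩
  have vM : ∀ a, zM a ≠ 0 → ∃ k, a = Sum.inl k ∧ n ≤ k := by
    intro a ha
    rw [hzM] at ha
    cases a with
    | inl k =>
      refine ⟨k, rfl, ?_⟩
      by_contra h
      apply ha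
      show (if n ≤ k then (1 : ℝ) else 0) * _ = 0
      rw [if_neg h, zero_mul]
    | inr j =>
      exfalso
      apply ha
      show (0 : ℝ) * _ = 0
      rw [zero_mul]
  have vLM0 : ∀ k, zL (Sum.inl k) + zM (Sum.inl k) = z (Sum.inl k) := by
    intro k
    rw [hzL, hzM]
    show _ + (if n ≤ k then (1 : ℝ) else 0) * _ = _
    by_cases h : n ≤ k
    · rw [if_pos h, if_neg, one_mul, zero_add]
      rw [hLL]
      rintro ⟨h', -⟩
      exact absurd (h' k rfl) (not_lt.2 h)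
    · rw [if_neg h, zero_mul, add_zero, if_pos]
      rw [hLL]
      refine ⟨fun k' hk' => ?_, fun j hj => absurd hj Sum.inl_ne_inr⟩
      have : k = k' := Sum.inl_injective hk'
      omega
  have vO : ∀ k, zO (Sum.inl k) = 0 := fun k => by
    rw [hzO, ← vLM0 k]; ring
  have vOr : ∀ j, |zO (Sum.inr j)| = if m ≤ o j then |z (Sum.inr j)| else 0 := by
    intro j
    have e1 : zM (Sum.inr j) = 0 := by
      rw [hzM]
      show (0 : ℝ) * _ = 0
      rw [zero_mul]
    rw [hzO, e1, sub_zero, hzL]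
    by_cases h : m ≤ o j
    · rw [if_pos h, if_neg, sub_zero]
      rw [hLL]
      rintro ⟨-, h'⟩
      exact absurd (h' j rfl) (not_lt.2 h)
    · rw [if_neg h, if_pos, sub_self, abs_zero]
      rw [hLL]
      refine ⟨fun k hk => absurd hk.symm Sum.inl_ne_inr, fun j' hj' => ?_⟩
      have : j = j' := Sum.inr_injective hj'
      rw [← this]
      omega
  -- the norm of `zO`
  have nO : √(∑ a ∈ FF, zO a ^ 2) ≤ ∑ j ∈ F, (if m ≤ o j then |z (Sum.inr j)| else 0) := by
    refine (sqrt_le_sum FF zO).trans ?_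
    refine (sum_le_of_van FF (F.image Sum.inr) _ (fun a => abs_nonneg _) fun a _ ha => ?_).trans ?_
    · cases a with
      | inl k => rw [vO, abs_zero]
      | inr j =>
        have hjF : j ∉ F := fun hj' => ha (Finset.mem_image_of_mem _ hj')
        rw [vOr, hzF j hjF, abs_zero, ite_self]
    · rw [Finset.sum_image (fun x _ y _ h => Sum.inr_injective h)]
      exact Finset.sum_le_sum fun j _ => le_of_eq (vOr j)
  have nO0 : 0 ≤ √(∑ a ∈ FF, zO a ^ 2) := Real.sqrt_nonneg _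
  have nz : √(∑ a ∈ FF, z a ^ 2) ≤ 1 := Real.sqrt_le_one.2 h1
  have nLM : √(∑ a ∈ FF, (zL a + zM a) ^ 2) ≤ 1 := by
    refine Real.sqrt_le_one.2 (le_trans (Finset.sum_le_sum fun a _ => ?_) h1)
    cases a with
    | inl k => rw [vLM0]
    | inr j =>
      have e1 : zM (Sum.inr j) = 0 := by
        rw [hzM]
        show (0 : ℝ) * _ = 0
        rw [zero_mul]
      rw [e1, add_zero, hzL]
      split_ifs
      · exact le_rfl
      · rw [zero_pow two_ne_zero]; exact sq_nonneg _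
  -- the quadratic term
  have hcL : ∀ a b, c (Sum.inr w) a b * zL a * zM b = 0 := by
    intro a b
    by_cases ha : zL a = 0
    · rw [ha, mul_zero, zero_mul]
    by_cases hb : zM b = 0
    · rw [hb, mul_zero]
    obtain ⟨k, rfl, hk⟩ := vM b hb
    obtain ⟨v1, v2⟩ := vL a ha
    have h := (hK.sepo w k a (hg.trans hk) (fun k' hk' => (v1 k' hk').trans_le hk)
      (fun j hj => (v2 j hj).trans hk)).2
    rw [h, zero_mul, zero_mul]
  have hcR : ∀ a b, c (Sum.inr w) a b * zM a * zL b = 0 := by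
    intro a b
    by_cases ha : zM a = 0
    · rw [ha, mul_zero, zero_mul]
    by_cases hb : zL b = 0
    · rw [hb, mul_zero]
    obtain ⟨k, rfl, hk⟩ := vM a ha
    obtain ⟨v1, v2⟩ := vL b hb
    have h := (hK.sepo w k b (hg.trans hk) (fun k' hk' => (v1 k' hk').trans_le hk)
      (fun j hj => (v2 j hj).trans hk)).1
    rw [h, zero_mul, zero_mul]
  have hcM : ∀ a b, c (Sum.inr w) a b * zM a * zM b =
      if a = b then c (Sum.inr w) a a * zM a ^ 2 else 0 := by
    intro a b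
    by_cases hab : a = b
    · rw [if_pos hab, ← hab]; ring
    rw [if_neg hab]
    by_cases ha : zM a = 0
    · rw [ha, mul_zero, zero_mul]
    by_cases hb : zM b = 0
    · rw [hb, mul_zero]
    obtain ⟨k, rfl, hk⟩ := vM a ha
    obtain ⟨l, rfl, hl⟩ := vM b hb
    have hkl : k ≠ l := fun h => hab (by rw [h])
    rcases lt_or_gt_of_ne hkl with h | h
    · have h2 := (hK.sepo w l (Sum.inl k) (hg.trans hl)
        (fun k' hk' => by have : k = k' := Sum.inl_injective hk'; omega)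
        (fun j hj => absurd hj Sum.inl_ne_inr)).2
      rw [h2, zero_mul, zero_mul]
    · have h2 := (hK.sepo w k (Sum.inl l) (hg.trans hk)
        (fun k' hk' => by have : l = k' := Sum.inl_injective hk'; omega)
        (fun j hj => absurd hj Sum.inl_ne_inr)).1
      rw [h2, zero_mul, zero_mul]
  have hq : qd c z (Sum.inr w) = ∑ a ∈ FF, ∑ b ∈ FF, c (Sum.inr w) a b * zL a * zL b +
      ∑ a ∈ FF, c (Sum.inr w) a a * zM a ^ 2 +
      ∑ a ∈ FF, ∑ b ∈ FF, c (Sum.inr w) a b * zO a * z b +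
      ∑ a ∈ FF, ∑ b ∈ FF, c (Sum.inr w) a b * (zL a + zM a) * zO b := by
    rw [qd_eq FF hz]
    have e1 : ∀ a ∈ FF, ∑ b ∈ FF, c (Sum.inr w) a b * z a * z b =
        ∑ b ∈ FF, c (Sum.inr w) a b * zL a * zL b + c (Sum.inr w) a a * zM a ^ 2 +
        ∑ b ∈ FF, c (Sum.inr w) a b * zO a * z b +
        ∑ b ∈ FF, c (Sum.inr w) a b * (zL a + zM a) * zO b := by
      intro a ha
      have e2 : c (Sum.inr w) a a * zM a ^ 2 =
          ∑ b ∈ FF, if a = b then c (Sum.inr w) a a * zM a ^ 2 else 0 := by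
        rw [Finset.sum_ite_eq, if_pos ha]
      rw [e2, ← Finset.sum_add_distrib, ← Finset.sum_add_distrib, ← Finset.sum_add_distrib]
      refine Finset.sum_congr rfl fun b _ => ?_
      rw [← hcM a b]
      have e3 := hcL a b
      have e4 := hcR a b
      rw [hsum a, hsum b]
      linear_combination e3 + e4
    rw [Finset.sum_congr rfl e1, Finset.sum_add_distrib, Finset.sum_add_distrib,
      Finset.sum_add_distrib]
  -- the linear term
  have hDM : ∀ b, D (Sum.inr w) b * zM b = 0 := by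
    intro b
    by_cases hb : zM b = 0
    · rw [hb, mul_zero]
    obtain ⟨k, rfl, hk⟩ := vM b hb
    rw [hK.symm, hK.dsep k w (hg.trans hk), zero_mul]
  have hl : lin D z (Sum.inr w) = ∑ b ∈ FF, D (Sum.inr w) b * zL b +
      ∑ b ∈ FF, D (Sum.inr w) b * zO b := by
    rw [lin_eq FF hz, ← Finset.sum_add_distrib]
    refine Finset.sum_congr rfl fun b _ => ?_
    have := hDM b
    rw [hsum b]
    linear_combination this
  -- the low part
  have sw : ∀ f : Ix J → ℝ, (∀ a, z a = 0 → f a = 0) →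
      ∑ a ∈ LL, f a = ∑ a ∈ FF, if a ∈ LL then f a else 0 := by
    intro f hf
    rw [← Finset.sum_filter, Finset.filter_mem_eq_inter, Finset.inter_comm]
    symm
    refine Finset.sum_subset Finset.inter_subset_left fun a ha ha' => ?_
    refine hf a (hz a fun h => ha' (Finset.mem_inter.2 ⟨ha, h⟩))
  have hH : Hf D c LL w z = -(∑ b ∈ FF, D (Sum.inr w) b * zL b) +
      ∑ a ∈ FF, ∑ b ∈ FF, c (Sum.inr w) a b * zL a * zL b := by
    unfold Hf
    congr 1
    · congr 1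
      rw [sw (fun b => D (Sum.inr w) b * z b) (fun a ha => by rw [ha, mul_zero])]
      refine Finset.sum_congr rfl fun b _ => ?_
      rw [hzL]
      split_ifs
      · rfl
      · rw [mul_zero]
    · rw [Finset.sum_product]
      rw [sw (fun a => ∑ b ∈ LL, c (Sum.inr w) a b * z a * z b)
        (fun a ha => Finset.sum_eq_zero fun b _ => by rw [ha, mul_zero, zero_mul])]
      refine Finset.sum_congr rfl fun a _ => ?_
      rw [hzL a]
      split_ifs with h
      · rw [sw (fun b => c (Sum.inr w) a b * z a * z b) (fun b hb => by rw [hb, mul_zero])]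
        refine Finset.sum_congr rfl fun b _ => ?_
        rw [hzL]
        split_ifs
        · rfl
        · rw [mul_zero]
      · symm
        exact Finset.sum_eq_zero fun b _ => by rw [mul_zero, zero_mul]
  have e5 : -(lin D z (Sum.inr w)) + qd c z (Sum.inr w) - Hf D c LL w z =
      -(∑ b ∈ FF, D (Sum.inr w) b * zO b) +
      ∑ a ∈ FF, ∑ b ∈ FF, c (Sum.inr w) a b * zO a * z b +
      ∑ a ∈ FF, ∑ b ∈ FF, c (Sum.inr w) a b * (zL a + zM a) * zO b +
      ∑ a ∈ FF, c (Sum.inr w) a a * zM a ^ 2 := by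
    rw [hl, hq, hH]; ring
  have hRw := R0 hK (Sum.inr w)
  have hEw := E0 hK (Sum.inr w)
  have b1 : |∑ b ∈ FF, D (Sum.inr w) b * zO b| ≤ E (Sum.inr w) * √(∑ a ∈ FF, zO a ^ 2) :=
    hK.dlin _ _ _
  have b2 : |∑ a ∈ FF, ∑ b ∈ FF, c (Sum.inr w) a b * zO a * z b| ≤
      R (Sum.inr w) * √(∑ a ∈ FF, zO a ^ 2) := by
    refine (hK.bil _ _ _ _).trans (mul_le_mul_of_nonneg_left ?_ hRw)
    exact mul_le_of_le_one_right nO0 nz
  have b3 : |∑ a ∈ FF, ∑ b ∈ FF, c (Sum.inr w) a b * (zL a + zM a) * zO b| ≤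
      R (Sum.inr w) * √(∑ a ∈ FF, zO a ^ 2) := by
    refine (hK.bil _ _ (fun a => zL a + zM a) _).trans (mul_le_mul_of_nonneg_left ?_ hRw)
    exact mul_le_of_le_one_left nO0 nLM
  have b4 : |∑ a ∈ FF, c (Sum.inr w) a a * zM a ^ 2| ≤
      R (Sum.inr w) * ∑ a ∈ FF, mn n a * z a ^ 2 := by
    refine (Finset.abs_sum_le_sum_abs _ _).trans ?_
    rw [Finset.mul_sum]
    refine Finset.sum_le_sum fun a _ => ?_
    have e6 : zM a ^ 2 = mn n a * z a ^ 2 := by
      rw [hzM]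
      cases a with
      | inl k =>
        show ((if n ≤ k then (1 : ℝ) else 0) * _) ^ 2 = (if n ≤ k then (1 : ℝ) else 0) * _
        split_ifs
        · ring
        · ring
      | inr j =>
        show ((0 : ℝ) * _) ^ 2 = 0 * _
        ring
    rw [abs_mul, abs_of_nonneg (sq_nonneg (zM a)), ← e6]
    exact mul_le_mul_of_nonneg_right (c_le hK _ _ _) (sq_nonneg _)
  have b5 : (2 * R (Sum.inr w) + E (Sum.inr w)) * √(∑ a ∈ FF, zO a ^ 2) ≤
      ∑ j ∈ F, (if m ≤ o j then (2 * R (Sum.inr w) + E (Sum.inr w)) * |z (Sum.inr j)| else 0) := by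
    refine (mul_le_mul_of_nonneg_left nO (by linarith)).trans (le_of_eq ?_)
    rw [Finset.mul_sum]
    refine Finset.sum_congr rfl fun j _ => ?_
    split_ifs
    · rfl
    · rw [mul_zero]
  rw [e5]
  refine (abs_add_le _ _).trans (add_le_add ((abs_add_le _ _).trans ?_) b4)
  refine (add_le_add (abs_add_le _ _) le_rfl).trans ?_
  rw [abs_neg]
  linarith

end

end Pool.Agent.Y878.SK
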